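import Pool.Agent.H80.LD.Targets

/-!
# Board ldp, row KTS: tightness bounds the second moments
-/

set_option autoImplicit false

open MeasureTheory Filter Topology

namespace Pool.Agent.H66.LD

open Pool.Agent.H80.LD

theorem char_of {ν : ℕ → Measure ℝ} {ν' : Measure ℝ}
    (h : ∀ t : ℝ, Tendsto (fun k => ∫ x, Complex.exp (Complex.I * ((t * x : ℝ) : ℂ)) ∂(ν k)) atTop
      (𝓝 (∫ x, Complex.exp (Complex.I * ((t * x : ℝ) : ℂ)) ∂ν'))) (t : ℝ) :
    Tendsto (fun k => charFun (ν k) t) atTop (𝓝 (charFun ν' t)) := by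
  have h1 : ∀ μ : Measure ℝ, charFun μ t =
      ∫ x, Complex.exp (Complex.I * ((t * x : ℝ) : ℂ)) ∂μ := by
    intro μ
    rw [charFun_apply_real]
    refine integral_congr_ae (Eventually.of_forall fun x => ?_)
    change Complex.exp (t * x * Complex.I) = Complex.exp (Complex.I * ((t * x : ℝ) : ℂ))
    push_cast
    rw [mul_comm]
  simp only [h1]
  exact h t

theorem second {μ : Measure ℝ} [IsProbabilityMeasure μ] {R : ℝ}
    (hA : μ.real {x : ℝ | R < |x|} ≤ 1 / 16) (hi : Integrable (fun x : ℝ => x ^ 4) μ)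
    (h4 : ∫ x, x ^ 4 ∂μ ≤ 3 * (∫ x, x ^ 2 ∂μ) ^ 2) : ∫ x, x ^ 2 ∂μ ≤ 2 * R ^ 2 := by
  have hi2 : Integrable (fun x : ℝ => x ^ 2) μ := by
    refine Integrable.mono' ((integrable_const (1 : ℝ)).add hi)
      (measurable_id.pow_const 2).aestronglyMeasurable (Eventually.of_forall fun x => ?_)
    rw [Real.norm_eq_abs, abs_of_nonneg (sq_nonneg x)]
    change x ^ 2 ≤ 1 + x ^ 4
    nlinarith [sq_nonneg (x ^ 2 - 1), sq_nonneg x]
  set m := ∫ x, x ^ 2 ∂μ with hm
  have hm0 : 0 ≤ m := integral_nonneg fun x => sq_nonneg x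
  rcases hm0.eq_or_lt with h0 | h0
  · rw [← h0]
    positivity
  have hAm : MeasurableSet {x : ℝ | R < |x|} := measurableSet_lt measurable_const
    (measurable_id.abs)
  have hind : Integrable ({x : ℝ | R < |x|}.indicator fun _ => (1 : ℝ)) μ :=
    (integrable_const (1 : ℝ)).indicator hAm
  have key : m ≤ ∫ x, (R ^ 2 + (2 * m * ({x : ℝ | R < |x|}.indicator (fun _ => (1 : ℝ)) x) +
      (1 / (8 * m)) * x ^ 4)) ∂μ := by
    refine integral_mono hi2 ((integrable_const _).add ((hind.const_mul _).add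
      (hi.const_mul _))) fun x => ?_
    change x ^ 2 ≤ R ^ 2 + (2 * m * ({x : ℝ | R < |x|}.indicator (fun _ => (1 : ℝ)) x) +
      (1 / (8 * m)) * x ^ 4)
    by_cases hx : R < |x|
    · rw [Set.indicator_of_mem (show x ∈ {x : ℝ | R < |x|} from hx)]
      have h1 : 0 ≤ (1 / (8 * m)) * (x ^ 2 - 4 * m) ^ 2 := by positivity
      have h2 : (1 / (8 * m)) * (x ^ 2 - 4 * m) ^ 2 = (1 / (8 * m)) * x ^ 4 - x ^ 2 + 2 * m := by
        field_simp
        ring
      rw [h2] at h1
      nlinarith [sq_nonneg R]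
    · rw [Set.indicator_of_notMem (show x ∉ {x : ℝ | R < |x|} from hx)]
      have h1 : x ^ 2 ≤ R ^ 2 := by
        have := not_lt.1 hx
        rw [← sq_abs x]
        exact pow_le_pow_left₀ (abs_nonneg x) this 2
      have h2 : 0 ≤ (1 / (8 * m)) * x ^ 4 := by positivity
      linarith
  have j1 : Integrable (fun x : ℝ => 2 * m * ({x : ℝ | R < |x|}.indicator (fun _ => (1 : ℝ)) x)) μ :=
    hind.const_mul _
  have j2 : Integrable (fun x : ℝ => (1 / (8 * m)) * x ^ 4) μ := hi.const_mul _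
  have j3 : Integrable (fun x : ℝ => 2 * m * ({x : ℝ | R < |x|}.indicator (fun _ => (1 : ℝ)) x) +
      (1 / (8 * m)) * x ^ 4) μ := j1.add j2
  rw [integral_add (integrable_const _) j3, integral_add j1 j2, integral_const_mul,
    integral_const_mul, integral_indicator_const _ hAm, integral_const] at key
  simp only [probReal_univ, smul_eq_mul, one_mul, mul_one] at key
  have h5 : (1 / (8 * m)) * ∫ x, x ^ 4 ∂μ ≤ 3 / 8 * m := by
    have h6 : (1 / (8 * m)) * ∫ x, x ^ 4 ∂μ ≤ (1 / (8 * m)) * (3 * m ^ 2) :=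
      mul_le_mul_of_nonneg_left h4 (by positivity)
    refine h6.trans (le_of_eq ?_)
    field_simp
  have h7 : 2 * m * μ.real {x : ℝ | R < |x|} ≤ 2 * m * (1 / 16) :=
    mul_le_mul_of_nonneg_left hA (by positivity)
  linarith

theorem pf_KTS : T_KTS := by
  intro ν ν' hν hν' hch hi h4
  have hc := char_of hch
  have ht : IsTightMeasureSet (Set.range ν) :=
    isTightMeasureSet_of_tendsto_charFun (f := charFun ν')
      (by fun_prop) hc
  rw [isTightMeasureSet_iff_exists_isCompact_measure_compl_le] at ht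
  obtain ⟨K, hK, hK2⟩ := ht (ENNReal.ofReal (1 / 16)) (by simp)
  obtain ⟨R, hR⟩ := hK.isBounded.subset_closedBall (0 : ℝ)
  refine ⟨2 * (max R 0) ^ 2, fun k => ?_⟩
  refine second ?_ (hi k) (h4 k)
  have h1 : {x : ℝ | max R 0 < |x|} ⊆ Kᶜ := by
    intro x hx hxK
    have h2 := hR hxK
    rw [mem_closedBall_zero_iff, Real.norm_eq_abs] at h2
    have h3 : max R 0 < |x| := hx
    have h4 := le_max_left R 0
    linarith
  have h2 := (measure_mono h1).trans (hK2 (ν k) ⟨k, rfl⟩)
  exact ENNReal.toReal_le_of_le_ofReal (by norm_num) h2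

end Pool.Agent.H66.LD
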