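import Pool.Agent.H66.LD.KTS

/-!
# Board ldp, row WMC: convergence of the moments
-/

set_option autoImplicit false

open MeasureTheory Filter Topology

namespace Pool.Agent.H66.LD

open Pool.Agent.H80.LD

/-- the truncation at the height `n` -/
noncomputable def clp (n y : ℝ) : ℝ := max (-n) (min y n)

theorem clp_cont (n : ℝ) : Continuous (clp n) := by
  unfold clp
  fun_prop

theorem clp_le {n : ℝ} (hn : 0 ≤ n) (y : ℝ) : |clp n y| ≤ n := by
  unfold clp
  rw [abs_le]
  constructor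
  · exact le_max_left _ _
  · exact max_le (by linarith) (min_le_right _ _)

theorem clp_err {n : ℝ} (hn : 0 < n) (y : ℝ) : |y - clp n y| ≤ y ^ 2 / n := by
  rw [le_div_iff₀ hn]
  unfold clp
  rcases le_total y n with h1 | h1
  · rw [min_eq_left h1]
    rcases le_total (-n) y with h2 | h2
    · rw [max_eq_right h2, sub_self, abs_zero, zero_mul]
      positivity
    · rw [max_eq_left h2, abs_of_nonpos (by linarith)]
      nlinarith
  · rw [min_eq_right h1, max_eq_right (by linarith), abs_of_nonneg (by linarith)]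
    nlinarith

theorem weak {ν : ℕ → Measure ℝ} {ν' : Measure ℝ} (hν : ∀ k, IsProbabilityMeasure (ν k))
    (hν' : IsProbabilityMeasure ν')
    (hc : ∀ t, Tendsto (fun k => charFun (ν k) t) atTop (𝓝 (charFun ν' t))) (g : ℝ → ℝ)
    (hg : Continuous g) (C : ℝ) (hC : ∀ x, |g x| ≤ C) :
    Tendsto (fun k => ∫ x, g x ∂(ν k)) atTop (𝓝 (∫ x, g x ∂ν')) := by
  let μ : ℕ → ProbabilityMeasure ℝ := fun k => ⟨ν k, hν k⟩
  let μ₀ : ProbabilityMeasure ℝ := ⟨ν', hν'⟩
  have h1 : Tendsto μ atTop (𝓝 μ₀) := ProbabilityMeasure.tendsto_of_tendsto_charFun hc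
  rw [ProbabilityMeasure.tendsto_iff_forall_integral_tendsto] at h1
  exact h1 (BoundedContinuousFunction.ofNormedAddCommGroup g hg C hC)

theorem int_lim {ν : ℕ → Measure ℝ} {ν' : Measure ℝ} (hν : ∀ k, IsProbabilityMeasure (ν k))
    (hν' : IsProbabilityMeasure ν')
    (hc : ∀ t, Tendsto (fun k => charFun (ν k) t) atTop (𝓝 (charFun ν' t))) (p : ℕ) (C : ℝ)
    (hi : ∀ k, Integrable (fun x : ℝ => x ^ (2 * p)) (ν k))
    (hC : ∀ k, ∫ x, x ^ (2 * p) ∂(ν k) ≤ C) :
    Integrable (fun x : ℝ => x ^ (2 * p)) ν' ∧ ∫ x, x ^ (2 * p) ∂ν' ≤ C := by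
  have hpos : ∀ x : ℝ, 0 ≤ x ^ (2 * p) := fun x => by
    rw [pow_mul]
    positivity
  have hb : ∀ n : ℕ, ∫ x, min (x ^ (2 * p)) (n : ℝ) ∂ν' ≤ C := by
    intro n
    have h1 := weak hν hν' hc (fun x => min (x ^ (2 * p)) (n : ℝ)) (by fun_prop) n fun x => by
      rw [abs_of_nonneg (le_min (hpos x) (Nat.cast_nonneg n))]
      exact min_le_right _ _
    refine le_of_tendsto' h1 fun k => ?_
    refine (integral_mono_of_nonneg (Eventually.of_forall fun x =>
      le_min (hpos x) (Nat.cast_nonneg n)) (hi k) (Eventually.of_forall fun x =>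
        min_le_left _ _)).trans (hC k)
  have hl : ∫⁻ x, ENNReal.ofReal (x ^ (2 * p)) ∂ν' ≤ ENNReal.ofReal C := by
    have h1 : ∀ x : ℝ, ENNReal.ofReal (x ^ (2 * p)) =
        ⨆ n : ℕ, ENNReal.ofReal (min (x ^ (2 * p)) (n : ℝ)) := by
      intro x
      refine le_antisymm ?_ (iSup_le fun n => ENNReal.ofReal_le_ofReal (min_le_left _ _))
      obtain ⟨n, hn⟩ := exists_nat_ge (x ^ (2 * p))
      refine le_iSup_of_le n ?_
      rw [min_eq_left hn]
    simp only [h1]
    rw [lintegral_iSup]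
    · refine iSup_le fun n => ?_
      rw [← ofReal_integral_eq_lintegral_ofReal]
      · exact ENNReal.ofReal_le_ofReal (hb n)
      · refine Integrable.of_bound (Measurable.aestronglyMeasurable (by fun_prop)) (n : ℝ)
          (Eventually.of_forall fun x => ?_)
        rw [Real.norm_eq_abs, abs_of_nonneg (le_min (hpos x) (Nat.cast_nonneg n))]
        exact min_le_right _ _
      · exact Eventually.of_forall fun x => le_min (hpos x) (Nat.cast_nonneg n)
    · intro n
      fun_prop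
    · intro n m hnm x
      refine ENNReal.ofReal_le_ofReal (min_le_min le_rfl ?_)
      exact_mod_cast hnm
  have hint : Integrable (fun x : ℝ => x ^ (2 * p)) ν' := by
    refine ⟨Measurable.aestronglyMeasurable (by fun_prop), ?_⟩
    rw [hasFiniteIntegral_iff_ofReal (Eventually.of_forall hpos)]
    exact hl.trans_lt ENNReal.ofReal_lt_top
  refine ⟨hint, ?_⟩
  have hC0 : 0 ≤ C := (integral_nonneg fun x => hpos x).trans (hC 0)
  rw [integral_eq_lintegral_of_nonneg_ae (Eventually.of_forall hpos) hint.aestronglyMeasurable]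
  exact ENNReal.toReal_le_of_le_ofReal hC0 hl

theorem trunc_err {μ : Measure ℝ} [IsProbabilityMeasure μ] {p : ℕ} {C n : ℝ} (hn : 0 < n)
    (hi : Integrable (fun x : ℝ => x ^ (2 * p)) μ) (hC : ∫ x, x ^ (2 * p) ∂μ ≤ C) :
    Integrable (fun x : ℝ => x ^ p) μ ∧
      |∫ x, x ^ p ∂μ - ∫ x, clp n (x ^ p) ∂μ| ≤ C / n := by
  have h1 : Integrable (fun x : ℝ => x ^ p) μ := by
    refine Integrable.mono' ((integrable_const (1 : ℝ)).add hi)
      (measurable_id.pow_const p).aestronglyMeasurable (Eventually.of_forall fun x => ?_)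
    rw [Real.norm_eq_abs]
    change |x ^ p| ≤ 1 + x ^ (2 * p)
    rw [mul_comm, pow_mul, ← sq_abs (x ^ p)]
    nlinarith [abs_nonneg (x ^ p), sq_nonneg (|x ^ p| - 1)]
  have h2 : Integrable (fun x : ℝ => clp n (x ^ p)) μ :=
    Integrable.of_bound ((clp_cont n).measurable.comp (measurable_id.pow_const p)).aestronglyMeasurable
      n (Eventually.of_forall fun x => by
        rw [Real.norm_eq_abs]
        exact clp_le hn.le _)
  refine ⟨h1, ?_⟩
  rw [← integral_sub h1 h2]
  refine (abs_integral_le_integral_abs).trans ?_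
  have h3 : ∫ x, |x ^ p - clp n (x ^ p)| ∂μ ≤ ∫ x, x ^ (2 * p) / n ∂μ := by
    refine integral_mono (h1.sub h2).abs (hi.div_const n) fun x => ?_
    have h4 := clp_err hn (x ^ p)
    rwa [← pow_mul, mul_comm p 2] at h4
  refine h3.trans ?_
  rw [integral_div]
  exact div_le_div_of_nonneg_right hC hn.le

theorem pf_WMC : T_WMC := by
  intro ν ν' hν hν' hch hm p
  have hc := char_of hch
  obtain ⟨hi, C, hC⟩ := hm p
  obtain ⟨hi', hC'⟩ := int_lim hν hν' hc p C hi hC
  refine ⟨(trunc_err one_pos hi' hC').1, ?_⟩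
  have hC0 : 0 ≤ C := by
    refine (integral_nonneg fun x => ?_).trans (hC 0)
    change 0 ≤ x ^ (2 * p)
    rw [pow_mul]
    positivity
  rw [Metric.tendsto_atTop]
  intro ε hε
  have hn : 0 < 3 * (C + 1) / ε := by positivity
  set n : ℝ := 3 * (C + 1) / ε with hnn
  have hCn : C / n < ε / 3 := by
    rw [hnn, div_div_eq_mul_div, div_lt_div_iff₀ (by positivity) (by norm_num)]
    nlinarith
  have hw := weak hν hν' hc (fun x => clp n (x ^ p)) ((clp_cont n).comp (by fun_prop)) n
    fun x => clp_le hn.le _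
  rw [Metric.tendsto_atTop] at hw
  obtain ⟨N, hN⟩ := hw (ε / 3) (by positivity)
  refine ⟨N, fun k hk => ?_⟩
  have h1 := (trunc_err hn (hi k) (hC k)).2
  have h2 := (trunc_err hn hi' hC').2
  have h3 := hN k hk
  rw [Real.dist_eq] at h3 ⊢
  rw [abs_le] at h1 h2
  rw [abs_lt] at h3 ⊢
  constructor <;> linarith [h1.1, h1.2, h2.1, h2.2, h3.1, h3.2]

end Pool.Agent.H66.LD
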